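import Pool.Agent.H17.S4d

set_option autoImplicit false

namespace Pool.Agent.Results.MP_9acee6_nt.Four

/-- `S k m n`: the coefficient of `x ^ n` in `(1 - x) ^ (-m) ∏ (1 - x ^ (k ^ i)) ^ (-m (k - 1))`.
The factor `1 / (1 - x ^ (k ^ i))` is the series with coefficient `1` at the multiples of `k ^ i`;
the factors with `i > n` do not affect the coefficient. -/
noncomputable def S (k m n : ℕ) : ℤ :=
  PowerSeries.coeff n ((PowerSeries.mk (fun _ : ℕ => (1 : ℤ))) ^ m * (∏ i ∈ Finset.range (n + 1),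
    PowerSeries.mk (fun j : ℕ => if k ^ i ∣ j then (1 : ℤ) else 0)) ^ (m * (k - 1)))

/-- the sequence `V_{p,a,m}` -/
noncomputable def V (p a m : ℕ) (n : ℕ) : ℕ := padicValInt p (S (p ^ a) m n)

/-- `e` is `p`-automatic: its `p`-kernel is finite -/
def Automatic (p : ℕ) (e : ℕ → ℕ) : Prop :=
  {s : ℕ → ℕ | ∃ i j : ℕ, j < p ^ i ∧ s = fun n => e (p ^ i * n + j)}.Finite

theorem result : ∀ m : ℕ, 1 ≤ m → (∀ n, 0 < S (2 ^ 2) m n) ∧
    (Automatic 2 (V 2 2 m) ↔ m % 8 ≠ 6) ∧ ((∃ B, ∀ n, V 2 2 m n ≤ B) ↔ m % 8 ≠ 6) := by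
  intro m hm
  open Pool.Agent.H17 in
  have hS : ∀ n, S (2 ^ 2) m n = S4.S m n := fun n => rfl
  have unb : m % 8 = 6 → ∀ B, ∃ n, B < V 2 2 m n := by
    intro h6 B
    obtain ⟨n, hn⟩ := Pool.Agent.H17.S4.unbounded m h6 (B + 1)
    have hp := Pool.Agent.H17.S4.S_pos m n (by omega)
    have h2 : (2 : ℤ) ^ (B + 1) ∣ Pool.Agent.H17.S4.S m n :=
      (pow_dvd_pow_of_dvd (by norm_num) _).trans hn
    have := (padicValInt_dvd_iff (p := 2) (B + 1) _).1 h2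
    exact ⟨n, by unfold V; rw [hS]; omega⟩
  have val : m % 8 ≠ 6 → ∀ n, n ≠ 0 → V 2 2 m n =
      Pool.Agent.H17.S4.f m (Pool.Agent.H17.S4.v n) := fun h6 n hn =>
    (Pool.Agent.H17.S4.main m n (by omega) h6 hn).padic
  have aut : m % 8 ≠ 6 → Automatic 2 (V 2 2 m) := fun h6 =>
    Pool.Agent.H17.S4.kernel_finite _ _ _ (val h6) (Pool.Agent.H17.S4.f_le m)
      (Pool.Agent.H17.S4.f_per m)
  refine ⟨fun n => Pool.Agent.H17.S4.S_pos m n (by omega), ⟨fun h h6 => ?_, aut⟩,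
    ⟨fun ⟨B, hB⟩ h6 => ?_, fun h6 => ?_⟩⟩
  · obtain ⟨B, hB⟩ := (h.image (fun s => s 0)).bddAbove
    obtain ⟨n, hn⟩ := unb h6 B
    have := hB ⟨_, ⟨n, n, Nat.lt_two_pow_self, rfl⟩, rfl⟩
    simp at this; omega
  · obtain ⟨n, hn⟩ := unb h6 B
    have := hB n; omega
  · refine ⟨V 2 2 m 0 + (Pool.Agent.H17.S4.v m + Pool.Agent.H17.S4.v (m + 1) + 4), fun n => ?_⟩
    by_cases hn : n = 0
    · subst hn; omega
    · have := Pool.Agent.H17.S4.f_le m (Pool.Agent.H17.S4.v n)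
      rw [val h6 n hn]; omega

end Pool.Agent.Results.MP_9acee6_nt.Four
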